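import Mathlib
import Pool.Agent.H.MP_fafee5_lc.Nh

set_option autoImplicit false

open Pool.Agent.H.MP_fafee5_lc Filter Topology

namespace Pool.Agent.Results.MP_fafee5_lc.Q1

def SS : Set (ℕ → ℕ) := {g | g = id ∨ ∀ x, g x = g 0}

def FF (n x : ℕ) : ℕ := 2 * (x / 2) + if n = 0 ∨ x / 2 < n - 1 then 1 else 0

def TT : Set (ℕ → ℕ) := insert id (insert (FF 0) (Set.range fun n => FF (n + 1)))

theorem FF_comp (n m : ℕ) : FF n ∘ FF m = FF n := by
  funext x
  have : FF m x / 2 = x / 2 := by unfold FF; split_ifs <;> omega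
  simp only [Function.comp, FF.eq_1 n, this]

theorem FF_ne (n : ℕ) : FF n ≠ id := fun h => by
  have h0 := congrFun h 0
  have h1 := congrFun h 1
  simp [FF] at h0 h1
  omega

theorem FF_inj : Function.Injective FF := by
  intro n m h
  by_contra hne
  have h1 := congrFun h (2 * (n - 1))
  have h2 := congrFun h (2 * (m - 1))
  simp only [FF] at h1 h2
  split_ifs at h1 h2 <;> omega

theorem mem_TT (g : ℕ → ℕ) : g ∈ TT ↔ g = id ∨ ∃ n, g = FF n := by
  simp only [TT, Set.mem_insert_iff, Set.mem_range]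
  refine or_congr_right ⟨?_, ?_⟩
  · rintro (rfl | ⟨n, rfl⟩) <;> exact ⟨_, rfl⟩
  · rintro ⟨_ | n, rfl⟩
    exacts [Or.inl rfl, Or.inr ⟨n, rfl⟩]

theorem FF_lim : Tendsto (fun n => FF (n + 1)) atTop (𝓝 (FF 0)) :=
  tendsto_pi_nhds.2 (fun x => tendsto_const_nhds.congr' (eventually_atTop.2 ⟨x + 1, fun n hn => by
    simp only [FF]; rw [if_pos (Or.inl trivial), if_pos (Or.inr (by omega))]⟩))

theorem TT_M : IsM TT := by
  refine ⟨(FF_lim.isCompact_insert_range.insert id).isClosed, Or.inl rfl, fun f hf g hg => ?_⟩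
  rw [mem_TT] at *
  rcases hf with rfl | ⟨n, rfl⟩
  · exact hg
  · rcases hg with rfl | ⟨m, rfl⟩
    · exact Or.inr ⟨n, rfl⟩
    · exact Or.inr ⟨n, FF_comp n m⟩

theorem SS_M : IsM SS := by
  refine ⟨isClosed_singleton.union (s₂ := {g : ℕ → ℕ | ∀ x, g x = g 0}) ?_, Or.inl rfl, ?_⟩
  · rw [Set.ofPred_forall]
    exact isClosed_iInter (fun x => isClosed_eq (continuous_apply x) (continuous_apply 0))
  · rintro f (rfl | hf) g hg
    · exact hg
    · exact Or.inr (fun x => (hf _).trans (hf _).symm)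

theorem SS_iso (f : SS) : ∀ᶠ g in 𝓝 f, g = f := by
  refine (nhds_iff f _).2 ⟨f.1 0 + 2, fun g hg => Subtype.ext ?_⟩
  have h0 := hg 0 (by omega)
  have h1 := hg (f.1 0 + 1) (by omega)
  rcases f.2 with hf | hf <;> rcases g.2 with hg' | hg'
  · rw [hf, hg']
  · rw [hg', h0, hf] at h1; simp at h1
  · rw [hf (f.1 0 + 1), hg'] at h1; simp at h1
  · funext x; rw [hg', hf x, h0]

theorem result : ∃ S : Set (ℕ → ℕ), IsM S ∧ AutCont S ∧ ¬ AutHomeo S := by
  classical
  refine ⟨SS, SS_M, fun T _ φ _ => continuous_iff_continuousAt.2 (fun f =>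
    tendsto_const_nhds.congr' ((SS_iso f).mono (fun g hg => by rw [hg]))), fun h => ?_⟩
  let φ : SS → TT := fun s => ⟨if s.1 = id then id else FF (s.1 0), by
    rw [mem_TT]; split_ifs; exacts [Or.inl rfl, Or.inr ⟨_, rfl⟩]⟩
  have nc : ∀ g : ℕ → ℕ, (∀ x, g x = g 0) → g ≠ id := fun g hg e => by
    have := hg 1; rw [e] at this; simp at this
  have hφ : ∀ n, (φ ⟨fun _ => n, Or.inr (fun _ => rfl)⟩).1 = FF n := fun n =>
    if_neg (nc _ (fun _ => rfl))
  have hh := h TT TT_M φ ?_ ⟨?_, ?_⟩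
  · have h1 := hh.isOpenMap.image_mem_nhds (SS_iso ⟨fun _ => 0, Or.inr (fun _ => rfl)⟩)
    obtain ⟨k, hk⟩ := (nhds_iff _ _).1 h1
    obtain ⟨s, rfl, hs⟩ := hk ⟨FF (k + 1), (mem_TT _).2 (Or.inr ⟨_, rfl⟩)⟩ (fun i hi => by
      rw [hφ]; simp only [FF]; rw [if_pos (Or.inl trivial), if_pos (Or.inr (by omega))])
    have := FF_inj ((hφ 0).symm.trans (congrArg Subtype.val hs))
    omega
  · rintro ⟨f, hf⟩ ⟨g, hg⟩ ⟨_, hh⟩ rfl
    rcases hf with rfl | hf
    · simp [φ]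
    · have h1 := nc f hf
      have h2 := nc (f ∘ g) (fun x => (hf _).trans (hf _).symm)
      simp only [φ, h1, h2, if_false, Function.comp_apply, hf (g 0)]
      split_ifs
      · rfl
      · exact (FF_comp _ _).symm
  · rintro ⟨f, hf⟩ ⟨g, hg⟩ e
    have e' := congrArg Subtype.val e
    simp only [φ] at e'
    split_ifs at e' with h1 h2 h2
    · exact Subtype.ext (h1.trans h2.symm)
    · exact absurd e'.symm (FF_ne _)
    · exact absurd e' (FF_ne _)
    · exact Subtype.ext (funext fun x => (hf.resolve_left h1 x).trans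
        ((FF_inj e').trans (hg.resolve_left h2 x).symm))
  · rintro ⟨t, ht⟩
    rcases (mem_TT t).1 ht with rfl | ⟨n, rfl⟩
    · exact ⟨⟨id, Or.inl rfl⟩, Subtype.ext (if_pos rfl)⟩
    · exact ⟨_, Subtype.ext (hφ n)⟩

end Pool.Agent.Results.MP_fafee5_lc.Q1
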