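import Mathlib
import Pool.Agent.H.MP_fafee5_lc.Nh

set_option autoImplicit false

open Pool.Agent.H.MP_fafee5_lc Filter Topology

namespace Pool.Agent.Results.MP_fafee5_lc.Q2

theorem embed (S T : Set (ℕ → ℕ)) (hS : IsM S) (ho : Oligo S) (φ : S → T) (hφ : IsHom φ)
    (hc : Continuous φ) (hi : Function.Injective φ) (f : S) (a : ℕ) :
    ∃ n, ∀ g : S, (∀ x < n, (φ g).1 x = (φ f).1 x) → g.1 a = f.1 a := by
  by_contra hn
  push Not at hn
  choose F hF1 hF2 using hn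
  let Rl : ℕ → ℕ → (ℕ → ℕ × ℕ) → Prop := fun k n p => ∃ g ∈ S, ∃ g' ∈ S, g ∘ g' = id ∧
    g' ∘ g = id ∧ ∀ i < k, (g ((F n).1 i), g (f.1 i)) = p i
  have step : ∀ k p, {n | Rl k n p}.Infinite →
      ∃ q, {n | Rl (k + 1) n q}.Infinite ∧ ∀ i < k, q i = p i := by
    intro k p hp
    obtain ⟨R, hR⟩ := ho (k + 1 + (k + 1)) (by omega)
    choose r hr g hg g' hg' h1 h2 h3 using fun n =>
      hR (Fin.append (fun i : Fin (k + 1) => (F n).1 i) (fun i : Fin (k + 1) => f.1 i))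
    have := hp.to_subtype
    obtain ⟨⟨y, hy⟩, hinf⟩ := Finite.exists_infinite_fiber
      (fun n : {n | Rl k n p} => (⟨r n, hr n⟩ : R))
    obtain ⟨⟨⟨m, u, hu, u', hu', e1, e2, e3⟩, hm⟩⟩ := hinf.nonempty
    have hm' : r m = y := congrArg Subtype.val hm
    refine ⟨fun i => (u ((F m).1 i), u (f.1 i)), ((Set.infinite_coe_iff.1 hinf).image
      Subtype.val_injective.injOn).mono ?_, e3⟩
    rintro _ ⟨⟨n, hn⟩, hn', rfl⟩
    have hn'' : r n = r m := (congrArg Subtype.val hn').trans hm'.symm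
    refine ⟨u ∘ g' m ∘ g n, hS.2.2 _ hu _ (hS.2.2 _ (hg' m) _ (hg n)), g' n ∘ g m ∘ u',
      hS.2.2 _ (hg' n) _ (hS.2.2 _ (hg m) _ hu'), funext fun x => ?_, funext fun x => ?_,
      fun i hi => ?_⟩
    · exact (congrArg (u ∘ g' m) (congrFun (h1 n) _)).trans
        ((congrArg u (congrFun (h2 m) _)).trans (congrFun e1 x))
    · exact (congrArg (g' n ∘ g m) (congrFun e2 _)).trans
        ((congrArg (g' n) (congrFun (h1 m) _)).trans (congrFun (h2 n) x))
    · have e := (h3 n).trans (hn''.trans (h3 m).symm)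
      have a1 := congrFun e (Fin.castAdd _ ⟨i, hi⟩)
      have a2 := congrFun e (Fin.natAdd _ ⟨i, hi⟩)
      simp only [Function.comp, Fin.append_left, Fin.append_right] at a1 a2
      simp only [Function.comp, a1, a2]
      rw [show g' m (g m _) = _ from congrFun (h2 m) _, show g' m (g m _) = _ from congrFun (h2 m) _]
      rfl
  choose! nx hn1 hn2 using step
  let p : ℕ → ℕ → ℕ × ℕ := fun k => Nat.rec (fun _ => (0, 0)) nx k
  have hp : ∀ k, {n | Rl k n (p k)}.Infinite := by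
    intro k
    induction k with
    | zero => exact Set.infinite_univ.mono (fun n _ => ⟨id, hS.2.1, id, hS.2.1, rfl, rfl, by simp⟩)
    | succ k ih => exact hn1 k _ ih
  have hp2 : ∀ i k, i < k → p k i = p (i + 1) i := by
    intro i k hk
    induction k, hk using Nat.le_induction with
    | base => rfl
    | succ k hk ih => exact (hn2 k _ (hp k) i hk).trans ih
  have key : ∀ k x, ∃ n, x < n ∧ ∃ g ∈ S, Function.Injective g ∧ (∀ i < k, g ((F n).1 i) =
      (p (i + 1) i).1) ∧ ∀ i < k, g (f.1 i) = (p (i + 1) i).2 := by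
    intro k x
    obtain ⟨n, ⟨g, hg, g', -, -, e, h⟩, hx⟩ := (hp k).exists_gt x
    exact ⟨n, hx, g, hg, Function.LeftInverse.injective (congrFun e),
      fun i hi => by rw [← hp2 i k hi, ← h i hi], fun i hi => by rw [← hp2 i k hi, ← h i hi]⟩
  have cl : ∀ P : ℕ → ℕ, (∀ k, ∃ s ∈ S, ∀ i < k, s i = P i) → P ∈ S := by
    intro P h
    choose s hs h using h
    exact hS.1.mem_of_tendsto (f := s) (b := atTop) (tendsto_pi_nhds.2 (fun i =>
      tendsto_const_nhds.congr' (eventually_atTop.2 ⟨i + 1, fun k hk => (h k i hk).symm⟩)))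
      (Eventually.of_forall hs)
  have m1 : (fun i => (p (i + 1) i).1) ∈ S := cl _ (fun k => by
    obtain ⟨n, -, g, hg, -, h, -⟩ := key k 0
    exact ⟨_, hS.2.2 _ hg _ (F n).2, h⟩)
  have m2 : (fun i => (p (i + 1) i).2) ∈ S := cl _ (fun k => by
    obtain ⟨n, -, g, hg, -, -, h⟩ := key k 0
    exact ⟨_, hS.2.2 _ hg _ f.2, h⟩)
  have e : φ ⟨_, m1⟩ = φ ⟨_, m2⟩ := by
    ext x
    have c : ∀ s : S, ∃ k, ∀ g : S, (∀ i < k, g.1 i = s.1 i) → (φ g).1 x = (φ s).1 x := fun s =>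
      (nhds_iff s _).1 (hc.continuousAt.eventually
        ((nhds_iff (φ s) (fun t => t.1 x = (φ s).1 x)).2 ⟨x + 1, fun t ht => ht x x.lt_succ_self⟩))
    obtain ⟨k1, h1⟩ := c ⟨_, m1⟩
    obtain ⟨k2, h2⟩ := c ⟨_, m2⟩
    obtain ⟨n, hx, g, hg, -, h3, h4⟩ := key (k1 + k2) x
    rw [← h1 ⟨_, hS.2.2 _ hg _ (F n).2⟩ (fun i hi => h3 i (by omega)),
      ← h2 ⟨_, hS.2.2 _ hg _ f.2⟩ (fun i hi => h4 i (by omega)), 
      hφ ⟨g, hg⟩ (F n) ⟨_, hS.2.2 _ hg _ (F n).2⟩ rfl, hφ ⟨g, hg⟩ f ⟨_, hS.2.2 _ hg _ f.2⟩ rfl,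
      Function.comp, Function.comp, hF1 n x hx]
  obtain ⟨n, -, g, -, hg, h3, h4⟩ := key (a + 1) 0
  exact hF2 n (hg ((h3 a a.lt_succ_self).trans ((congrFun (congrArg Subtype.val (hi e)) a).trans
    (h4 a a.lt_succ_self).symm)))

theorem result (S : Set (ℕ → ℕ)) (hS : IsM S) (ho : Oligo S) (h : AutCont S) : AutHomeo S := by
  intro T hT φ hφ hb
  have hc := h T hT φ hφ
  let e := Equiv.ofBijective φ hb
  refine (Homeomorph.mk e hc ?_).isHomeomorph
  refine continuous_induced_rng.2 (continuous_pi (fun a => continuous_iff_continuousAt.2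
    (fun t => ?_)))
  obtain ⟨n, hn⟩ := embed S T hS ho φ hφ hc hb.1 (e.symm t) a
  refine tendsto_const_nhds.congr' ((nhds_iff t _).2 ⟨n, fun s hs => (hn (e.symm s) ?_).symm⟩)
  intro x hx
  rw [show φ (e.symm s) = s from e.apply_symm_apply s, show φ (e.symm t) = t from e.apply_symm_apply t]
  exact hs x hx

end Pool.Agent.Results.MP_fafee5_lc.Q2
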